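import Pool.Agent.Work.MP_3e8641_co.Main

open Finset

/-- Every 3-colouring of `[2, N]` has at least `(1 / (5 * 2 ^ (4 / 5)) - o(1)) N ^ (1 / 5) log N`
monochromatic ordered solutions of `x y = z`. -/
theorem Pool.Agent.Results.MP_3e8641_co.SharpConstant.result (ε : ℝ) (hε : 0 < ε) :
    ∃ N₀ : ℕ, ∀ N : ℕ, N₀ ≤ N → ∀ c : ℕ → Fin 3,
      (1 / (5 * (2 : ℝ) ^ (4 / 5 : ℝ)) - ε) * (N : ℝ) ^ (1 / 5 : ℝ) * Real.log N ≤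
        (((Icc 2 N ×ˢ Icc 2 N ×ˢ Icc 2 N).filter fun t : ℕ × ℕ × ℕ =>
          t.1 * t.2.1 = t.2.2 ∧ c t.1 = c t.2.1 ∧ c t.2.1 = c t.2.2).card : ℝ) := by
  obtain ⟨N₀, h⟩ := Pool.Agent.Work.MP_3e8641_co.main ε hε
  refine ⟨N₀, fun N hN c => (h N hN c).trans ?_⟩
  refine Nat.cast_le.mpr (card_le_card_of_injOn (fun t => (t.1, t.2, t.1 * t.2)) ?_ ?_)
  · rintro ⟨x, y⟩ ht
    simp only [Pool.Agent.Work.MP_3e8641_co.Sol, coe_filter, mem_product, mem_Icc,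
      Set.mem_ofPred_eq] at ht ⊢
    obtain ⟨⟨h1, h2⟩, h3, h4, h5⟩ := ht
    exact ⟨⟨h1, h2, by nlinarith [h1.1, h2.1], h3⟩, trivial, h4, h5⟩
  · rintro ⟨x, y⟩ - ⟨x', y'⟩ - hh
    simp only [Prod.mk.injEq] at hh ⊢
    exact ⟨hh.1, hh.2.1⟩
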